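import Pool.Agent.Helper97.FS.Stmts

set_option autoImplicit false

/-! Module E7: the smoothed densities converge in measure to the density of the measure. -/

namespace Pool.Agent.Helper97.FS

open Finset MeasureTheory Filter Topology UnitAddTorus
open scoped ComplexConjugate ENNReal

noncomputable section

variable {n : ℕ}

theorem e7_add (m : Fin n → ℤ) (x y : UnitAddTorus (Fin n)) :
    mFourier m (x + y) = mFourier m x * mFourier m y := by
  simp only [mFourier, ContinuousMap.coe_mk, ← Finset.prod_mul_distrib, Pi.add_apply]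
  refine Finset.prod_congr rfl (fun i _ => ?_)
  simp only [fourier_apply, smul_add, AddCircle.toCircle_add, Circle.coe_mul]

theorem e7_norm (m : Fin n → ℤ) (x : UnitAddTorus (Fin n)) : ‖mFourier m x‖ = 1 := by
  simp only [mFourier, ContinuousMap.coe_mk, norm_prod]
  refine Finset.prod_eq_one fun i _ => ?_
  simp [fourier_apply]

theorem e7_ne (m : Fin n → ℤ) (hm : m ≠ 0) : ∃ y, mFourier m y ≠ 1 := by
  obtain ⟨i, hi⟩ : ∃ i, m i ≠ 0 := by
    by_contra hcon
    push Not at hcon
    exact hm (funext hcon)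
  have hi' : ((m i : ℤ) : ℂ) ≠ 0 := by exact_mod_cast hi
  refine ⟨fun j => if j = i then ((1 / (2 * (m i : ℝ)) : ℝ) : AddCircle (1 : ℝ)) else 0, ?_⟩
  have h1 : mFourier m (fun j => if j = i then ((1 / (2 * (m i : ℝ)) : ℝ) : AddCircle (1 : ℝ))
      else 0) = -1 := by
    simp only [mFourier, ContinuousMap.coe_mk]
    rw [Finset.prod_eq_single i]
    · rw [if_pos rfl, fourier_coe_apply]
      have h2 : 2 * (Real.pi : ℂ) * Complex.I * ((m i : ℤ) : ℂ) *
          ((1 / (2 * (m i : ℝ)) : ℝ) : ℂ) / ((1 : ℝ) : ℂ) = Real.pi * Complex.I := by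
        push_cast
        field_simp
      rw [h2, Complex.exp_pi_mul_I]
    · intro j _ hj
      rw [if_neg hj]
      simp [fourier_apply]
    · intro h
      exact absurd (Finset.mem_univ i) h
  rw [h1]
  norm_num

theorem e7_cint (μ : Measure (UnitAddTorus (Fin n))) [IsFiniteMeasure μ]
    {f : UnitAddTorus (Fin n) → ℂ} (hf : Continuous f) : Integrable f μ :=
  hf.integrable_of_hasCompactSupport (HasCompactSupport.of_compactSpace _)

theorem e7_int0 (m : Fin n → ℤ) (hm : m ≠ 0) : ∫ x, mFourier m x ∂(tor n) = 0 := by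
  obtain ⟨y, hy⟩ := e7_ne m hm
  have h1 := integral_add_right_eq_self (μ := tor n) (fun x => mFourier m x) y
  have h2 : ∫ x, mFourier m (x + y) ∂(tor n) = (∫ x, mFourier m x ∂(tor n)) * mFourier m y := by
    rw [← integral_mul_const]
    exact integral_congr_ae (Eventually.of_forall fun x => e7_add m x y)
  rw [h2] at h1
  have h3 : (∫ x, mFourier m x ∂(tor n)) * (mFourier m y - 1) = 0 := by
    linear_combination h1
  rcases mul_eq_zero.1 h3 with h | h
  · exact h
  · exact absurd (sub_eq_zero.1 h) hy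

theorem e7_int (m : Fin n → ℤ) : ∫ x, mFourier m x ∂(tor n) = if m = 0 then 1 else 0 := by
  by_cases hm : m = 0
  · subst hm
    rw [if_pos rfl]
    have h1 : ∀ x, (mFourier (0 : Fin n → ℤ)) x = 1 := fun x => by
      rw [mFourier_zero]
      rfl
    simp only [h1]
    simp
  · rw [if_neg hm, e7_int0 m hm]

/-- induction on continuous functions -/
theorem e7_ind {p : C(UnitAddTorus (Fin n), ℂ) → Prop} (h1 : ∀ m, p (mFourier m)) (h0 : p 0)
    (hadd : ∀ f g, p f → p g → p (f + g)) (hsmul : ∀ (c : ℂ) (f), p f → p (c • f))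
    (hcl : ∀ f, (∀ ε : ℝ, 0 < ε → ∃ g, p g ∧ ∀ x, ‖f x - g x‖ ≤ ε) → p f)
    (f : C(UnitAddTorus (Fin n), ℂ)) : p f := by
  have hspan : ∀ g ∈ Submodule.span ℂ (Set.range (mFourier (d := Fin n))), p g := by
    intro g hg
    induction hg using Submodule.span_induction with
    | mem g hg =>
      obtain ⟨m, rfl⟩ := hg
      exact h1 m
    | zero => exact h0
    | add f g _ _ hf hg => exact hadd f g hf hg
    | smul c f _ hf => exact hsmul c f hf
  apply hcl
  intro ε hε
  have hf : f ∈ (Submodule.span ℂ (Set.range (mFourier (d := Fin n)))).topologicalClosure := by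
    rw [span_mFourier_closure_eq_top]
    exact Submodule.mem_top
  rw [← SetLike.mem_coe, Submodule.topologicalClosure_coe, Metric.mem_closure_iff] at hf
  obtain ⟨g, hg, hfg⟩ := hf ε hε
  refine ⟨g, hspan g hg, fun x => ?_⟩
  rw [dist_eq_norm] at hfg
  exact ((f - g).norm_coe_le_norm x).trans hfg.le

/-- averages over translations -/
def e7A (κ : Measure (UnitAddTorus (Fin n))) (φ : UnitAddTorus (Fin n) → ℂ)
    (y : UnitAddTorus (Fin n)) : ℂ := ∫ x, φ (x + y) ∂κ

theorem e7A_le (κ : Measure (UnitAddTorus (Fin n))) [IsProbabilityMeasure κ]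
    {φ : UnitAddTorus (Fin n) → ℂ} {C : ℝ} (hC : ∀ x, ‖φ x‖ ≤ C) (y : UnitAddTorus (Fin n)) :
    ‖e7A κ φ y‖ ≤ C := by
  have h := norm_integral_le_of_norm_le_const (μ := κ) (f := fun x => φ (x + y)) (C := C)
    (Eventually.of_forall fun x => hC _)
  unfold e7A
  simpa using h

theorem e7A_cont (κ : Measure (UnitAddTorus (Fin n))) [IsProbabilityMeasure κ]
    (φ : C(UnitAddTorus (Fin n), ℂ)) : Continuous (e7A κ φ) := by
  refine continuous_of_dominated (bound := fun _ => ‖φ‖) (fun y => ?_) (fun y => ?_)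
    (integrable_const _) ?_
  · exact (φ.continuous.comp (continuous_id.add continuous_const)).aestronglyMeasurable
  · exact Eventually.of_forall fun x => φ.norm_coe_le_norm _
  · exact Eventually.of_forall fun x => φ.continuous.comp (continuous_const.add continuous_id)

theorem e7A_add (κ : Measure (UnitAddTorus (Fin n))) [IsProbabilityMeasure κ]
    (φ ψ : C(UnitAddTorus (Fin n), ℂ)) (y : UnitAddTorus (Fin n)) :
    e7A κ (φ + ψ : C(UnitAddTorus (Fin n), ℂ)) y = e7A κ φ y + e7A κ ψ y := by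
  unfold e7A
  rw [← integral_add]
  · rfl
  · exact e7_cint κ (φ.continuous.comp (continuous_id.add continuous_const))
  · exact e7_cint κ (ψ.continuous.comp (continuous_id.add continuous_const))

theorem e7A_smul (κ : Measure (UnitAddTorus (Fin n)))
    (c : ℂ) (φ : C(UnitAddTorus (Fin n), ℂ)) (y : UnitAddTorus (Fin n)) :
    e7A κ (c • φ : C(UnitAddTorus (Fin n), ℂ)) y = c * e7A κ φ y := by
  unfold e7A
  rw [← integral_const_mul]
  rfl

theorem e7A_sub (κ : Measure (UnitAddTorus (Fin n))) [IsProbabilityMeasure κ]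
    (φ ψ : C(UnitAddTorus (Fin n), ℂ)) (y : UnitAddTorus (Fin n)) :
    e7A κ φ y - e7A κ ψ y = e7A κ (fun x => φ x - ψ x) y := by
  unfold e7A
  rw [← integral_sub]
  · exact e7_cint κ (φ.continuous.comp (continuous_id.add continuous_const))
  · exact e7_cint κ (ψ.continuous.comp (continuous_id.add continuous_const))

theorem e7A_mF (κ : Measure (UnitAddTorus (Fin n))) (m : Fin n → ℤ)
    (y : UnitAddTorus (Fin n)) :
    e7A κ (mFourier m) y = (∫ x, mFourier m x ∂κ) * mFourier m y := by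
  unfold e7A
  rw [← integral_mul_const]
  exact integral_congr_ae (Eventually.of_forall fun x => e7_add m x y)

/-! ### the window function -/

theorem e7_ww_tend (a : ℝ) : Tendsto (fun t : ℝ => ((ww (a / t) : ℝ) : ℂ)) atTop (𝓝 1) := by
  have h1 : Tendsto (fun t : ℝ => a / t) atTop (𝓝 0) := tendsto_const_nhds.div_atTop tendsto_id
  have h2 : Continuous ww := by
    unfold ww
    fun_prop
  have h3 := (h2.tendsto 0).comp h1
  have h4 : ww 0 = 1 := by simp [ww]
  rw [h4] at h3
  have h5 := (Complex.continuous_ofReal.tendsto 1).comp h3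
  simpa [Function.comp_def] using h5

/-! ### uniform convergence of the averages -/

/-- the averages converge uniformly -/
def E7C (κ : ℝ → Measure (UnitAddTorus (Fin n))) (φ : C(UnitAddTorus (Fin n), ℂ)) : Prop :=
  ∀ ε : ℝ, 0 < ε → ∀ᶠ t in (atTop : Filter ℝ), ∀ y, ‖e7A (κ t) φ y - φ y‖ ≤ ε

theorem e7_conv (v : (Fin n → ℤ) →+ ℝ) (κ : ℝ → Measure (UnitAddTorus (Fin n)))
    (hκ : ∀ t : ℝ, 0 < t → IsProbabilityMeasure (κ t) ∧
      ∀ m, ∫ x, mFourier m x ∂(κ t) = ((ww (v m / t) : ℝ) : ℂ))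
    (φ : C(UnitAddTorus (Fin n), ℂ)) : E7C κ φ := by
  refine e7_ind (p := E7C κ) ?_ ?_ ?_ ?_ ?_ φ
  · intro m ε hε
    have h1 := (e7_ww_tend (v m)).eventually (Metric.ball_mem_nhds (1 : ℂ) hε)
    filter_upwards [h1, eventually_gt_atTop (0 : ℝ)] with t ht ht0 y
    rw [e7A_mF, (hκ t ht0).2 m]
    have h2 : ((ww (v m / t) : ℝ) : ℂ) * mFourier m y - mFourier m y =
        (((ww (v m / t) : ℝ) : ℂ) - 1) * mFourier m y := by ring
    rw [h2, norm_mul, e7_norm, mul_one, ← dist_eq_norm]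
    exact (Metric.mem_ball.1 ht).le
  · intro ε hε
    refine Eventually.of_forall fun t y => ?_
    have h1 : e7A (κ t) (0 : C(UnitAddTorus (Fin n), ℂ)) y = 0 := by
      unfold e7A
      simp
    rw [h1]
    simpa using hε.le
  · intro f g hf hg ε hε
    filter_upwards [hf (ε / 2) (half_pos hε), hg (ε / 2) (half_pos hε),
      eventually_gt_atTop (0 : ℝ)] with t h1 h2 ht0 y
    have := (hκ t ht0).1
    rw [e7A_add]
    have h3 : e7A (κ t) f y + e7A (κ t) g y - (f + g) y =
        (e7A (κ t) f y - f y) + (e7A (κ t) g y - g y) := by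
      rw [ContinuousMap.add_apply]
      ring
    rw [h3]
    calc _ ≤ ‖e7A (κ t) f y - f y‖ + ‖e7A (κ t) g y - g y‖ := norm_add_le _ _
      _ ≤ ε / 2 + ε / 2 := add_le_add (h1 y) (h2 y)
      _ = ε := by ring
  · intro c f hf ε hε
    have hc : 0 < ‖c‖ + 1 := by positivity
    filter_upwards [hf (ε / (‖c‖ + 1)) (div_pos hε hc)] with t h1 y
    rw [e7A_smul]
    have h3 : c * e7A (κ t) f y - (c • f) y = c * (e7A (κ t) f y - f y) := by
      rw [ContinuousMap.smul_apply, smul_eq_mul]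
      ring
    rw [h3, norm_mul]
    calc ‖c‖ * ‖e7A (κ t) f y - f y‖ ≤ (‖c‖ + 1) * (ε / (‖c‖ + 1)) :=
          mul_le_mul (by linarith) (h1 y) (norm_nonneg _) hc.le
      _ = ε := by field_simp
  · intro f hf ε hε
    obtain ⟨g, hg, hfg⟩ := hf (ε / 3) (by positivity)
    filter_upwards [hg (ε / 3) (by positivity), eventually_gt_atTop (0 : ℝ)] with t h1 ht0 y
    have := (hκ t ht0).1
    have h2 := e7A_le (κ t) hfg y
    rw [← e7A_sub] at h2
    have h3 : e7A (κ t) f y - f y = (e7A (κ t) f y - e7A (κ t) g y) +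
        (e7A (κ t) g y - g y) + (g y - f y) := by ring
    rw [h3]
    calc _ ≤ ‖e7A (κ t) f y - e7A (κ t) g y‖ + ‖e7A (κ t) g y - g y‖ + ‖g y - f y‖ :=
          norm_add₃_le
      _ ≤ ε / 3 + ε / 3 + ε / 3 := by
          refine add_le_add (add_le_add h2 (h1 y)) ?_
          rw [norm_sub_rev]
          exact hfg y
      _ = ε := by ring

/-- the averages converge weakly, uniformly in the test function -/
def E7Q (κ : ℝ → Measure (UnitAddTorus (Fin n))) (g : C(UnitAddTorus (Fin n), ℂ)) : Prop :=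
  ∀ ε : ℝ, 0 < ε → ∀ᶠ t in (atTop : Filter ℝ), ∀ φ : C(UnitAddTorus (Fin n), ℂ),
    (∀ x, ‖φ x‖ ≤ 1) →
      ‖(∫ y, e7A (κ t) φ y * g y ∂(tor n)) - ∫ y, φ y * g y ∂(tor n)‖ ≤ ε

theorem e7_swap (κ : Measure (UnitAddTorus (Fin n))) [IsProbabilityMeasure κ]
    (φ : C(UnitAddTorus (Fin n), ℂ)) (m : Fin n → ℤ) :
    ∫ y, e7A κ φ y * mFourier m y ∂(tor n) =
      (∫ x, mFourier (-m) x ∂κ) * ∫ y, φ y * mFourier m y ∂(tor n) := by
  have h1 : ∫ y, e7A κ φ y * mFourier m y ∂(tor n) =
      ∫ y, ∫ x, φ (x + y) * mFourier m y ∂κ ∂(tor n) := by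
    refine integral_congr_ae (Eventually.of_forall fun y => ?_)
    show e7A κ φ y * mFourier m y = ∫ x, φ (x + y) * mFourier m y ∂κ
    rw [integral_mul_const]
    rfl
  rw [h1, integral_integral_swap]
  · rw [← integral_mul_const]
    refine integral_congr_ae (Eventually.of_forall fun x => ?_)
    show ∫ y, φ (x + y) * mFourier m y ∂(tor n) =
      mFourier (-m) x * ∫ y, φ y * mFourier m y ∂(tor n)
    rw [← integral_add_left_eq_self (μ := tor n) (fun y => φ y * mFourier m y) x,
      ← integral_const_mul]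
    refine integral_congr_ae (Eventually.of_forall fun y => ?_)
    show φ (x + y) * mFourier m y = mFourier (-m) x * (φ (x + y) * mFourier m (x + y))
    rw [e7_add, mFourier_neg]
    have h2 : conj (mFourier m x) * mFourier m x = 1 := by
      rw [mul_comm, Complex.mul_conj, Complex.normSq_eq_norm_sq, e7_norm]
      simp
    linear_combination (-(φ (x + y) * mFourier m y)) * h2
  · have hc : Continuous (fun p : UnitAddTorus (Fin n) × UnitAddTorus (Fin n) =>
        φ (p.2 + p.1) * mFourier m p.1) :=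
      (φ.continuous.comp (continuous_snd.add continuous_fst)).mul
        ((mFourier m).continuous.comp continuous_fst)
    exact hc.integrable_of_hasCompactSupport (HasCompactSupport.of_compactSpace _)

theorem e7_convQ (v : (Fin n → ℤ) →+ ℝ) (κ : ℝ → Measure (UnitAddTorus (Fin n)))
    (hκ : ∀ t : ℝ, 0 < t → IsProbabilityMeasure (κ t) ∧
      ∀ m, ∫ x, mFourier m x ∂(κ t) = ((ww (v m / t) : ℝ) : ℂ))
    (g : C(UnitAddTorus (Fin n), ℂ)) : E7Q κ g := by
  have hcA : ∀ t : ℝ, 0 < t → ∀ φ : C(UnitAddTorus (Fin n), ℂ), Continuous (e7A (κ t) φ) :=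
    fun t ht φ => by
      have := (hκ t ht).1
      exact e7A_cont (κ t) φ
  refine e7_ind (p := E7Q κ) ?_ ?_ ?_ ?_ ?_ g
  · intro m ε hε
    have h1 := (e7_ww_tend (v (-m))).eventually (Metric.ball_mem_nhds (1 : ℂ) hε)
    filter_upwards [h1, eventually_gt_atTop (0 : ℝ)] with t ht ht0 φ hφ
    have := (hκ t ht0).1
    rw [e7_swap, (hκ t ht0).2 (-m)]
    have h2 : ∀ I : ℂ, ((ww (v (-m) / t) : ℝ) : ℂ) * I - I =
        (((ww (v (-m) / t) : ℝ) : ℂ) - 1) * I := fun I => by ring
    rw [h2, norm_mul, ← dist_eq_norm]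
    have h3 : ‖∫ y, φ y * mFourier m y ∂(tor n)‖ ≤ 1 := by
      have h := norm_integral_le_of_norm_le_const (μ := tor n)
        (f := fun y => φ y * mFourier m y) (C := 1) (Eventually.of_forall fun x => by
          rw [norm_mul, e7_norm, mul_one]
          exact hφ x)
      simpa using h
    calc _ ≤ ε * 1 := mul_le_mul (Metric.mem_ball.1 ht).le h3 (norm_nonneg _) hε.le
      _ = ε := mul_one ε
  · intro ε hε
    refine Eventually.of_forall fun t φ _ => ?_
    simpa using hε.le
  · intro f g hf hg ε hε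
    filter_upwards [hf (ε / 2) (half_pos hε), hg (ε / 2) (half_pos hε),
      eventually_gt_atTop (0 : ℝ)] with t h1 h2 ht0 φ hφ
    have hA := hcA t ht0 φ
    have e1 : ∫ y, e7A (κ t) φ y * (f + g) y ∂(tor n) =
        (∫ y, e7A (κ t) φ y * f y ∂(tor n)) + ∫ y, e7A (κ t) φ y * g y ∂(tor n) := by
      have i1 : Integrable (fun y => e7A (κ t) φ y * f y) (tor n) :=
        e7_cint _ (hA.mul f.continuous)
      have i2 : Integrable (fun y => e7A (κ t) φ y * g y) (tor n) :=
        e7_cint _ (hA.mul g.continuous)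
      rw [← integral_add i1 i2]
      refine integral_congr_ae (Eventually.of_forall fun y => ?_)
      show e7A (κ t) φ y * (f y + g y) = e7A (κ t) φ y * f y + e7A (κ t) φ y * g y
      ring
    have e2 : ∫ y, φ y * (f + g) y ∂(tor n) =
        (∫ y, φ y * f y ∂(tor n)) + ∫ y, φ y * g y ∂(tor n) := by
      have i1 : Integrable (fun y => φ y * f y) (tor n) :=
        e7_cint _ (φ.continuous.mul f.continuous)
      have i2 : Integrable (fun y => φ y * g y) (tor n) :=
        e7_cint _ (φ.continuous.mul g.continuous)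
      rw [← integral_add i1 i2]
      refine integral_congr_ae (Eventually.of_forall fun y => ?_)
      show φ y * (f y + g y) = φ y * f y + φ y * g y
      ring
    rw [e1, e2, add_sub_add_comm]
    calc _ ≤ _ := norm_add_le _ _
      _ ≤ ε / 2 + ε / 2 := add_le_add (h1 φ hφ) (h2 φ hφ)
      _ = ε := by ring
  · intro c f hf ε hε
    have hc : 0 < ‖c‖ + 1 := by positivity
    filter_upwards [hf (ε / (‖c‖ + 1)) (div_pos hε hc)] with t h1 φ hφ
    have e1 : ∀ ψ : UnitAddTorus (Fin n) → ℂ, ∫ y, ψ y * (c • f) y ∂(tor n) =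
        c * ∫ y, ψ y * f y ∂(tor n) := by
      intro ψ
      rw [← integral_const_mul]
      refine integral_congr_ae (Eventually.of_forall fun y => ?_)
      show ψ y * (c * f y) = c * (ψ y * f y)
      ring
    rw [e1, e1, ← mul_sub, norm_mul]
    calc _ ≤ (‖c‖ + 1) * (ε / (‖c‖ + 1)) :=
          mul_le_mul (by linarith) (h1 φ hφ) (norm_nonneg _) hc.le
      _ = ε := by field_simp
  · intro f hf ε hε
    obtain ⟨g, hg, hfg⟩ := hf (ε / 3) (by positivity)
    filter_upwards [hg (ε / 3) (by positivity), eventually_gt_atTop (0 : ℝ)] with t h1 ht0 φ hφ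
    have := (hκ t ht0).1
    have hA := hcA t ht0 φ
    have e1 : ∀ ψ : UnitAddTorus (Fin n) → ℂ, Continuous ψ → (∀ x, ‖ψ x‖ ≤ 1) →
        ‖(∫ y, ψ y * f y ∂(tor n)) - ∫ y, ψ y * g y ∂(tor n)‖ ≤ ε / 3 := by
      intro ψ hψ hψ1
      have i1 : Integrable (fun y => ψ y * f y) (tor n) := e7_cint _ (hψ.mul f.continuous)
      have i2 : Integrable (fun y => ψ y * g y) (tor n) := e7_cint _ (hψ.mul g.continuous)
      rw [← integral_sub i1 i2]
      have h := norm_integral_le_of_norm_le_const (μ := tor n)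
        (f := fun y => ψ y * f y - ψ y * g y) (C := ε / 3) (Eventually.of_forall fun x => by
          rw [← mul_sub, norm_mul]
          calc _ ≤ 1 * (ε / 3) := mul_le_mul (hψ1 x) (hfg x) (norm_nonneg _) zero_le_one
            _ = ε / 3 := one_mul _)
      simpa using h
    have a1 := e1 (e7A (κ t) φ) hA (e7A_le (κ t) hφ)
    have a2 := h1 φ hφ
    have a3 := e1 φ φ.continuous hφ
    have h3 : ∀ A B C D : ℂ, A - D = (A - B) + (B - C) + -(D - C) := fun A B C D => by ring
    rw [h3 _ (∫ y, e7A (κ t) φ y * g y ∂(tor n)) (∫ y, φ y * g y ∂(tor n)) _]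
    calc _ ≤ _ := norm_add₃_le
      _ ≤ ε / 3 + ε / 3 + ε / 3 := by
          refine add_le_add (add_le_add a1 a2) ?_
          rw [norm_neg]
          exact a3
      _ = ε := by ring

/-! ### the trigonometric polynomials -/

/-- the smoothed density as a trigonometric polynomial -/
def e7V (v : (Fin n → ℤ) →+ ℝ) (b : (Fin n → ℤ) → ℂ) (F : Finset (Fin n → ℤ)) (t : ℝ) :
    C(UnitAddTorus (Fin n), ℂ) :=
  ∑ m ∈ F, (b m * ((ww (v m / t) : ℝ) : ℂ)) • mFourier (-m)

theorem e7V_apply (v : (Fin n → ℤ) →+ ℝ) (b : (Fin n → ℤ) → ℂ) (F : Finset (Fin n → ℤ)) (t : ℝ)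
    (x : UnitAddTorus (Fin n)) :
    e7V v b F t x = ∑ m ∈ F, (b m * ((ww (v m / t) : ℝ) : ℂ)) * mFourier (-m) x := by
  unfold e7V
  rw [ContinuousMap.sum_apply]
  rfl

theorem e7_ww0 {a t : ℝ} (ht : 0 < t) (ha : t < |a|) : ww (a / t) = 0 := by
  have h1 : 1 ≤ |a / t| := by
    rw [abs_div, abs_of_pos ht, le_div_iff₀ ht]
    linarith
  unfold ww
  rw [max_eq_right (by linarith)]
  ring

theorem e7_VE (v : (Fin n → ℤ) →+ ℝ) (b : (Fin n → ℤ) → ℂ) (F : Finset (Fin n → ℤ)) {t : ℝ}
    (ht : 0 < t) (hF : ∀ m, |v m| ≤ t → b m ≠ 0 → m ∈ F) (x : UnitAddTorus (Fin n)) :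
    VE v b t x = (e7V v b F t x).re := by
  unfold VE
  rw [finsum_eq_sum_of_support_subset (s := F), e7V_apply]
  · congr 1
    exact Finset.sum_congr rfl fun m _ => by ring
  · intro m hm
    rw [Function.mem_support] at hm
    rw [Finset.mem_coe]
    refine hF m ?_ ?_
    · by_contra hcon
      push Not at hcon
      exact hm (by rw [e7_ww0 ht hcon]; simp)
    · intro h0
      exact hm (by rw [h0]; simp)

theorem e7A_int (κ β : Measure (UnitAddTorus (Fin n))) [IsProbabilityMeasure κ]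
    [IsProbabilityMeasure β] (φ : C(UnitAddTorus (Fin n), ℂ)) :
    Integrable (e7A κ φ) β := e7_cint β (e7A_cont κ φ)

/-- the densities are the convolutions of the measure -/
theorem e7_id (v : (Fin n → ℤ) →+ ℝ) (b : (Fin n → ℤ) → ℂ) (F : Finset (Fin n → ℤ)) {t : ℝ}
    (ht : 0 < t) (hF : ∀ m, |v m| ≤ t → b m ≠ 0 → m ∈ F)
    (κ β : Measure (UnitAddTorus (Fin n))) [IsProbabilityMeasure κ] [IsProbabilityMeasure β]
    (hκ : ∀ m, ∫ x, mFourier m x ∂κ = ((ww (v m / t) : ℝ) : ℂ))
    (hβ : ∀ m, ∫ x, mFourier m x ∂β = b m) (φ : C(UnitAddTorus (Fin n), ℂ)) :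
    ∫ y, φ y * e7V v b F t y ∂(tor n) = ∫ y, e7A κ φ y ∂β := by
  have hi : ∀ φ : C(UnitAddTorus (Fin n), ℂ), Integrable (fun y => φ y * e7V v b F t y) (tor n) :=
    fun φ => e7_cint _ (φ.continuous.mul (e7V v b F t).continuous)
  refine e7_ind (p := fun φ => ∫ y, φ y * e7V v b F t y ∂(tor n) = ∫ y, e7A κ φ y ∂β)
    ?_ ?_ ?_ ?_ ?_ φ
  · intro p
    have e1 : ∫ y, e7A κ (mFourier p) y ∂β = ((ww (v p / t) : ℝ) : ℂ) * b p := by
      have h1 : ∀ y, e7A κ (mFourier p) y = ((ww (v p / t) : ℝ) : ℂ) * mFourier p y := fun y => by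
        rw [e7A_mF, hκ]
      simp only [h1]
      rw [integral_const_mul, hβ]
    have e2 : ∀ m : Fin n → ℤ, ∫ y, mFourier p y * ((b m * ((ww (v m / t) : ℝ) : ℂ)) *
        mFourier (-m) y) ∂(tor n) = if m = p then b m * ((ww (v m / t) : ℝ) : ℂ) else 0 := by
      intro m
      have h1 : ∀ y, mFourier p y * ((b m * ((ww (v m / t) : ℝ) : ℂ)) * mFourier (-m) y) =
          (b m * ((ww (v m / t) : ℝ) : ℂ)) * mFourier (p + -m) y := fun y => by
        rw [mFourier_add]
        ring
      simp only [h1]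
      rw [integral_const_mul, e7_int]
      by_cases h : m = p
      · rw [if_pos h, if_pos (by rw [h]; simp)]
        ring
      · rw [if_neg h, if_neg (fun h2 => h (by rw [← sub_eq_add_neg, sub_eq_zero] at h2; exact h2.symm))]
        ring
    have e3 : ∫ y, mFourier p y * e7V v b F t y ∂(tor n) =
        ∑ m ∈ F, ∫ y, mFourier p y * ((b m * ((ww (v m / t) : ℝ) : ℂ)) *
        mFourier (-m) y) ∂(tor n) := by
      rw [← integral_finsetSum]
      · refine integral_congr_ae (Eventually.of_forall fun y => ?_)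
        show mFourier p y * e7V v b F t y = _
        rw [e7V_apply, Finset.mul_sum]
      · intro m _
        exact e7_cint _ ((mFourier p).continuous.mul (continuous_const.mul
          (mFourier (-m)).continuous))
    show ∫ y, mFourier p y * e7V v b F t y ∂(tor n) = ∫ y, e7A κ (mFourier p) y ∂β
    rw [e3, e1, Finset.sum_congr rfl fun m _ => e2 m, Finset.sum_ite_eq' F p]
    by_cases hp : p ∈ F
    · rw [if_pos hp]
      ring
    · rw [if_neg hp]
      by_cases hb : b p = 0
      · rw [hb]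
        ring
      · have h2 : t < |v p| := by
          by_contra hcon
          push Not at hcon
          exact hp (hF p hcon hb)
        rw [e7_ww0 ht h2]
        simp
  · have h1 : ∀ y, e7A κ (0 : C(UnitAddTorus (Fin n), ℂ)) y = 0 := fun y => by
      unfold e7A
      simp
    simp only [h1]
    simp
  · intro f g hf hg
    have e1 : ∫ y, (f + g) y * e7V v b F t y ∂(tor n) =
        (∫ y, f y * e7V v b F t y ∂(tor n)) + ∫ y, g y * e7V v b F t y ∂(tor n) := by
      rw [← integral_add (hi f) (hi g)]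
      refine integral_congr_ae (Eventually.of_forall fun y => ?_)
      show (f y + g y) * e7V v b F t y = f y * e7V v b F t y + g y * e7V v b F t y
      ring
    have e2 : ∫ y, e7A κ (f + g : C(UnitAddTorus (Fin n), ℂ)) y ∂β =
        (∫ y, e7A κ f y ∂β) + ∫ y, e7A κ g y ∂β := by
      rw [← integral_add (e7A_int κ β f) (e7A_int κ β g)]
      exact integral_congr_ae (Eventually.of_forall fun y => e7A_add κ f g y)
    show ∫ y, (f + g) y * e7V v b F t y ∂(tor n) =
      ∫ y, e7A κ (f + g : C(UnitAddTorus (Fin n), ℂ)) y ∂β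
    rw [e1, e2, hf, hg]
  · intro c f hf
    have e1 : ∫ y, (c • f) y * e7V v b F t y ∂(tor n) =
        c * (∫ y, f y * e7V v b F t y ∂(tor n)) := by
      rw [← integral_const_mul]
      refine integral_congr_ae (Eventually.of_forall fun y => ?_)
      show (c * f y) * e7V v b F t y = c * (f y * e7V v b F t y)
      ring
    have e2 : ∫ y, e7A κ (c • f : C(UnitAddTorus (Fin n), ℂ)) y ∂β = c * ∫ y, e7A κ f y ∂β := by
      rw [← integral_const_mul]
      exact integral_congr_ae (Eventually.of_forall fun y => e7A_smul κ c f y)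
    show ∫ y, (c • f) y * e7V v b F t y ∂(tor n) =
      ∫ y, e7A κ (c • f : C(UnitAddTorus (Fin n), ℂ)) y ∂β
    rw [e1, e2, hf]
  · intro f hf
    have key : ∀ ε : ℝ, 0 < ε → ‖(∫ y, f y * e7V v b F t y ∂(tor n)) - ∫ y, e7A κ f y ∂β‖ ≤
        ε * (‖e7V v b F t‖ + 1) := by
      intro ε hε
      obtain ⟨g, hg, hfg⟩ := hf ε hε
      have a1 : ‖(∫ y, f y * e7V v b F t y ∂(tor n)) - ∫ y, g y * e7V v b F t y ∂(tor n)‖ ≤
          ε * ‖e7V v b F t‖ := by
        rw [← integral_sub (hi f) (hi g)]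
        have h := norm_integral_le_of_norm_le_const (μ := tor n)
          (f := fun y => f y * e7V v b F t y - g y * e7V v b F t y) (C := ε * ‖e7V v b F t‖)
          (Eventually.of_forall fun x => by
            rw [← sub_mul, norm_mul]
            exact mul_le_mul (hfg x) ((e7V v b F t).norm_coe_le_norm x) (norm_nonneg _) hε.le)
        simpa using h
      have a2 : ‖(∫ y, e7A κ g y ∂β) - ∫ y, e7A κ f y ∂β‖ ≤ ε := by
        rw [← integral_sub (e7A_int κ β g) (e7A_int κ β f)]
        have h := norm_integral_le_of_norm_le_const (μ := β)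
          (f := fun y => e7A κ g y - e7A κ f y) (C := ε)
          (Eventually.of_forall fun x => by
            rw [e7A_sub]
            refine e7A_le κ (fun z => ?_) x
            rw [norm_sub_rev]
            exact hfg z)
        simpa using h
      have h3 : ∀ A B C : ℂ, A - C = (A - B) + (B - C) := fun A B C => by ring
      rw [h3 _ (∫ y, g y * e7V v b F t y ∂(tor n)) _]
      refine (norm_add_le _ _).trans ?_
      have a3 : (∫ y, g y * e7V v b F t y ∂(tor n)) = ∫ y, e7A κ g y ∂β := hg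
      rw [a3] at a1 ⊢
      linarith
    have h4 : (∫ y, f y * e7V v b F t y ∂(tor n)) - ∫ y, e7A κ f y ∂β = 0 := by
      rw [← norm_le_zero_iff]
      refine le_of_forall_pos_le_add fun ε hε => ?_
      have hc : 0 < ‖e7V v b F t‖ + 1 := by positivity
      have h5 := key (ε / (‖e7V v b F t‖ + 1)) (div_pos hε hc)
      rw [div_mul_cancel₀ _ hc.ne'] at h5
      linarith
    exact sub_eq_zero.1 h4

/-! ### the singular part -/

/-- a cutoff function away from the singular part -/
theorem e7_cut (βs : Measure (UnitAddTorus (Fin n))) [IsFiniteMeasure βs]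
    (hs : βs ⟂ₘ tor n) {η : ℝ} (hη : 0 < η) :
    ∃ χ : C(UnitAddTorus (Fin n), ℝ), (∀ x, 0 ≤ χ x ∧ χ x ≤ 1) ∧ (∫ x, χ x ∂βs) ≤ η ∧
      (tor n).real {x | χ x ≠ 1} ≤ η := by
  obtain ⟨S, hSm, hS1, hS2⟩ := hs
  have hη' : ENNReal.ofReal η ≠ 0 := by
    rw [Ne, ENNReal.ofReal_eq_zero]
    linarith
  obtain ⟨C1, hC1S, hC1, hC1m⟩ := hSm.compl.exists_isCompact_sdiff_lt (μ := βs)
    (measure_ne_top _ _) hη'
  have hC10 : (tor n) C1 = 0 := measure_mono_null hC1S hS2
  obtain ⟨U, hU, hUo, hUm⟩ := Set.exists_isOpen_lt_of_lt (μ := tor n) C1 (ENNReal.ofReal η)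
    (by rw [hC10]; exact pos_iff_ne_zero.2 hη')
  obtain ⟨χ, h0, h1, h2⟩ := exists_continuous_zero_one_of_isClosed hC1.isClosed
    hUo.isClosed_compl (by
      rw [Set.disjoint_compl_right_iff_subset]
      exact hU)
  refine ⟨χ, fun x => h2 x, ?_, ?_⟩
  · have hb : ∀ x, χ x ≤ (C1ᶜ).indicator (fun _ => (1 : ℝ)) x := by
      intro x
      by_cases hx : x ∈ C1
      · rw [Set.indicator_of_notMem (s := C1ᶜ) (fun h => h hx), h0 hx]
        exact le_refl (0 : ℝ)
      · rw [Set.indicator_of_mem (show x ∈ C1ᶜ from hx)]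
        exact (h2 x).2
    have hC1c : MeasurableSet C1ᶜ := hC1.isClosed.measurableSet.compl
    have i1 : Integrable χ βs :=
      χ.continuous.integrable_of_hasCompactSupport (HasCompactSupport.of_compactSpace _)
    have i2 : Integrable ((C1ᶜ).indicator (fun _ => (1 : ℝ))) βs :=
      (integrable_const (1 : ℝ)).indicator hC1c
    have h3 := integral_mono i1 i2 hb
    rw [integral_indicator hC1c, setIntegral_const, smul_eq_mul, mul_one] at h3
    refine h3.trans ?_
    have h4 : βs C1ᶜ ≤ ENNReal.ofReal η := by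
      have h5 : C1ᶜ ⊆ (Sᶜ \ C1) ∪ S := by
        intro x hx
        by_cases hxS : x ∈ S
        · exact Or.inr hxS
        · exact Or.inl ⟨hxS, hx⟩
      calc βs C1ᶜ ≤ βs ((Sᶜ \ C1) ∪ S) := measure_mono h5
        _ ≤ βs (Sᶜ \ C1) + βs S := measure_union_le _ _
        _ = βs (Sᶜ \ C1) := by rw [hS1, add_zero]
        _ ≤ _ := hC1m.le
    rw [Measure.real]
    exact ENNReal.toReal_le_of_le_ofReal hη.le h4
  · have h3 : (tor n) {x | χ x ≠ 1} ≤ ENNReal.ofReal η := by
      refine (measure_mono ?_).trans hUm.le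
      intro x hx
      by_contra hxU
      exact hx (h1 hxU)
    rw [Measure.real]
    exact ENNReal.toReal_le_of_le_ofReal hη.le h3

/-! ### the decomposition -/

theorem e7_dec (β : Measure (UnitAddTorus (Fin n))) [IsProbabilityMeasure β]
    {f : UnitAddTorus (Fin n) → ℂ} (hf : Continuous f) :
    ∫ x, f x ∂β = (∫ x, f x ∂(β.singularPart (tor n))) +
      ∫ x, (((β.rnDeriv (tor n) x).toReal : ℝ) : ℂ) * f x ∂(tor n) := by
  have h0 : Integrable f β := e7_cint β hf
  have h1 : Integrable f (β.singularPart (tor n)) := e7_cint _ hf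
  have h2 : Integrable f ((tor n).withDensity (β.rnDeriv (tor n))) :=
    h0.mono_measure (Measure.withDensity_rnDeriv_le β (tor n))
  have h3 : ∫ x, f x ∂β = ∫ x, f x ∂(β.singularPart (tor n) +
      (tor n).withDensity (β.rnDeriv (tor n))) := by
    rw [← Measure.haveLebesgueDecomposition_add β (tor n)]
  rw [h3, integral_add_measure h1 h2, integral_withDensity_eq_integral_toReal_smul
    (Measure.measurable_rnDeriv _ _) (Measure.rnDeriv_lt_top _ _)]
  rfl

/-- the main estimate -/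
theorem e7_key (β κ : Measure (UnitAddTorus (Fin n))) [IsProbabilityMeasure β]
    [IsProbabilityMeasure κ] (V g : C(UnitAddTorus (Fin n), ℂ)) (χ : C(UnitAddTorus (Fin n), ℝ))
    {η : ℝ} (hη : 0 < η) (hχ : ∀ x, 0 ≤ χ x ∧ χ x ≤ 1)
    (hχs : (∫ x, χ x ∂(β.singularPart (tor n))) ≤ η)
    (hA : ∀ y, ‖e7A κ (fun x => ((χ x : ℝ) : ℂ)) y - ((χ y : ℝ) : ℂ)‖ ≤ η)
    (hg : ∫ x, ‖(((β.rnDeriv (tor n) x).toReal : ℝ) : ℂ) - g x‖ ∂(tor n) ≤ η)
    (hQ : ∀ φ : C(UnitAddTorus (Fin n), ℂ), (∀ x, ‖φ x‖ ≤ 1) →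
      ‖(∫ y, e7A κ φ y * g y ∂(tor n)) - ∫ y, φ y * g y ∂(tor n)‖ ≤ η)
    (hid : ∀ φ : C(UnitAddTorus (Fin n), ℂ),
      ∫ y, φ y * V y ∂(tor n) = ∫ y, e7A κ φ y ∂β) :
    ∫ x, χ x * ‖V x - g x‖ ∂(tor n) ≤ 5 * η := by
  have hρi : Integrable (fun x => (((β.rnDeriv (tor n) x).toReal : ℝ) : ℂ)) (tor n) :=
    Measure.integrable_toReal_rnDeriv.ofReal
  have step : ∀ φ : C(UnitAddTorus (Fin n), ℂ), (∀ x, ‖φ x‖ ≤ χ x) →
      ‖∫ y, φ y * (V y - g y) ∂(tor n)‖ ≤ 4 * η := by
    intro φ hφ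
    have hφ1 : ∀ x, ‖φ x‖ ≤ 1 := fun x => (hφ x).trans (hχ x).2
    have hAc := e7A_cont κ φ
    have hA1 := e7A_le κ hφ1
    have hAb : ∀ y, ‖e7A κ φ y‖ ≤ χ y + η := by
      intro y
      have b1 : Integrable (fun x => χ (x + y)) κ :=
        (χ.continuous.comp (continuous_id.add continuous_const)).integrable_of_hasCompactSupport
          (HasCompactSupport.of_compactSpace _)
      have b2 : ‖e7A κ φ y‖ ≤ ∫ x, χ (x + y) ∂κ :=
        norm_integral_le_of_norm_le b1 (Eventually.of_forall fun x => hφ (x + y))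
      have b3 : e7A κ (fun x => ((χ x : ℝ) : ℂ)) y = ((∫ x, χ (x + y) ∂κ : ℝ) : ℂ) := by
        unfold e7A
        exact integral_ofReal
      have b4 := hA y
      rw [b3, ← Complex.ofReal_sub, Complex.norm_real, Real.norm_eq_abs] at b4
      have b5 := (abs_le.1 b4).2
      linarith
    have e1 : ∫ y, φ y * (V y - g y) ∂(tor n) =
        (∫ y, e7A κ φ y ∂(β.singularPart (tor n))) +
        (∫ y, ((((β.rnDeriv (tor n) y).toReal : ℝ) : ℂ) - g y) * e7A κ φ y ∂(tor n)) +
        ((∫ y, e7A κ φ y * g y ∂(tor n)) - ∫ y, φ y * g y ∂(tor n)) := by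
      have i1 : Integrable (fun y => φ y * V y) (tor n) := e7_cint _ (φ.continuous.mul V.continuous)
      have i2 : Integrable (fun y => φ y * g y) (tor n) := e7_cint _ (φ.continuous.mul g.continuous)
      have i3 : Integrable (fun y => e7A κ φ y * g y) (tor n) := e7_cint _ (hAc.mul g.continuous)
      have i4 : Integrable (fun y => (((β.rnDeriv (tor n) y).toReal : ℝ) : ℂ) * e7A κ φ y)
          (tor n) := hρi.mul_bdd hAc.aestronglyMeasurable (Eventually.of_forall hA1)
      have f1 : ∫ y, φ y * (V y - g y) ∂(tor n) =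
          (∫ y, φ y * V y ∂(tor n)) - ∫ y, φ y * g y ∂(tor n) := by
        rw [← integral_sub i1 i2]
        refine integral_congr_ae (Eventually.of_forall fun y => ?_)
        show φ y * (V y - g y) = φ y * V y - φ y * g y
        ring
      have f2 : (∫ y, ((((β.rnDeriv (tor n) y).toReal : ℝ) : ℂ) - g y) * e7A κ φ y ∂(tor n)) =
          (∫ y, (((β.rnDeriv (tor n) y).toReal : ℝ) : ℂ) * e7A κ φ y ∂(tor n)) -
            ∫ y, e7A κ φ y * g y ∂(tor n) := by
        rw [← integral_sub i4 i3]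
        refine integral_congr_ae (Eventually.of_forall fun y => ?_)
        show ((((β.rnDeriv (tor n) y).toReal : ℝ) : ℂ) - g y) * e7A κ φ y =
          (((β.rnDeriv (tor n) y).toReal : ℝ) : ℂ) * e7A κ φ y - e7A κ φ y * g y
        ring
      rw [f1, hid, e7_dec β hAc, f2]
      ring
    have n1 : ‖∫ y, e7A κ φ y ∂(β.singularPart (tor n))‖ ≤ 2 * η := by
      have j1 : Integrable (fun y => χ y) (β.singularPart (tor n)) :=
        χ.continuous.integrable_of_hasCompactSupport (HasCompactSupport.of_compactSpace _)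
      have j2 : Integrable (fun y => χ y + η) (β.singularPart (tor n)) :=
        j1.add (integrable_const η)
      have j3 := norm_integral_le_of_norm_le j2 (Eventually.of_forall hAb)
      rw [integral_add j1 (integrable_const η), integral_const, smul_eq_mul] at j3
      have j4 : (β.singularPart (tor n)).real Set.univ ≤ 1 := by
        have j5 : (β.singularPart (tor n)) Set.univ ≤ 1 := by
          rw [← measure_univ (μ := β)]
          exact Measure.singularPart_le β (tor n) _
        rw [Measure.real]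
        exact ENNReal.toReal_le_of_le_ofReal zero_le_one (by simpa using j5)
      have j6 : (β.singularPart (tor n)).real Set.univ * η ≤ 1 * η :=
        mul_le_mul_of_nonneg_right j4 hη.le
      linarith
    have n2 : ‖∫ y, ((((β.rnDeriv (tor n) y).toReal : ℝ) : ℂ) - g y) * e7A κ φ y ∂(tor n)‖ ≤
        η := by
      have i5 : Integrable (fun y => ‖(((β.rnDeriv (tor n) y).toReal : ℝ) : ℂ) - g y‖) (tor n) :=
        (hρi.sub (e7_cint _ g.continuous)).norm
      refine (norm_integral_le_of_norm_le i5 (Eventually.of_forall fun y => ?_)).trans hg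
      rw [norm_mul]
      calc _ ≤ ‖(((β.rnDeriv (tor n) y).toReal : ℝ) : ℂ) - g y‖ * 1 :=
            mul_le_mul_of_nonneg_left (hA1 y) (norm_nonneg _)
        _ = _ := mul_one _
    have n3 := hQ φ hφ1
    rw [e1]
    refine (norm_add₃_le).trans ?_
    linarith
  -- the test function
  have hD : Continuous fun x => V x - g x := V.continuous.sub g.continuous
  have hpos : ∀ x, 0 < ‖V x - g x‖ + η := fun x => by positivity
  have hφc : Continuous fun x => ((χ x : ℝ) : ℂ) * conj (V x - g x) /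
      ((‖V x - g x‖ + η : ℝ) : ℂ) := by
    refine Continuous.div ?_ ?_ ?_
    · exact (Complex.continuous_ofReal.comp χ.continuous).mul (Complex.continuous_conj.comp hD)
    · exact Complex.continuous_ofReal.comp (hD.norm.add continuous_const)
    · intro x
      exact_mod_cast (hpos x).ne'
  have hs := step ⟨_, hφc⟩ (fun x => by
    show ‖((χ x : ℝ) : ℂ) * conj (V x - g x) / ((‖V x - g x‖ + η : ℝ) : ℂ)‖ ≤ χ x
    rw [norm_div, norm_mul, Complex.norm_real, Complex.norm_real, RCLike.norm_conj,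
      Real.norm_eq_abs, Real.norm_eq_abs, abs_of_nonneg (hχ x).1, abs_of_pos (hpos x),
      div_le_iff₀ (hpos x)]
    exact mul_le_mul_of_nonneg_left (by linarith) (hχ x).1)
  have e2 : ∫ y, ((χ y : ℝ) : ℂ) * conj (V y - g y) / ((‖V y - g y‖ + η : ℝ) : ℂ) *
      (V y - g y) ∂(tor n) =
      ((∫ y, χ y * (‖V y - g y‖ ^ 2 / (‖V y - g y‖ + η)) ∂(tor n) : ℝ) : ℂ) := by
    refine Eq.trans ?_ (integral_ofReal (𝕜 := ℂ))
    refine integral_congr_ae (Eventually.of_forall fun y => ?_)
    show ((χ y : ℝ) : ℂ) * conj (V y - g y) / ((‖V y - g y‖ + η : ℝ) : ℂ) *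
      (V y - g y) = ((χ y * (‖V y - g y‖ ^ 2 / (‖V y - g y‖ + η)) : ℝ) : ℂ)
    have h1 : conj (V y - g y) * (V y - g y) = ((‖V y - g y‖ ^ 2 : ℝ) : ℂ) := by
      rw [mul_comm, Complex.mul_conj, Complex.normSq_eq_norm_sq]
    have h2 : ((χ y : ℝ) : ℂ) * conj (V y - g y) / ((‖V y - g y‖ + η : ℝ) : ℂ) *
      (V y - g y) = ((χ y : ℝ) : ℂ) * (conj (V y - g y) * (V y - g y)) /
        ((‖V y - g y‖ + η : ℝ) : ℂ) := by ring
    rw [h2, h1, ← Complex.ofReal_mul, ← Complex.ofReal_div]
    congr 1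
    ring
  have hs2 : ‖∫ y, ((χ y : ℝ) : ℂ) * conj (V y - g y) / ((‖V y - g y‖ + η : ℝ) : ℂ) *
      (V y - g y) ∂(tor n)‖ ≤ 4 * η := hs
  rw [e2, Complex.norm_real, Real.norm_eq_abs] at hs2
  have hs3 := (abs_le.1 hs2).2
  have k1 : Integrable (fun x => χ x * ‖V x - g x‖) (tor n) :=
    (χ.continuous.mul hD.norm).integrable_of_hasCompactSupport
      (HasCompactSupport.of_compactSpace _)
  have k2 : Integrable (fun x => χ x * (‖V x - g x‖ ^ 2 / (‖V x - g x‖ + η))) (tor n) :=
    (χ.continuous.mul ((hD.norm.pow 2).div (hD.norm.add continuous_const)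
      (fun x => (hpos x).ne'))).integrable_of_hasCompactSupport
        (HasCompactSupport.of_compactSpace _)
  have k3 : ∫ x, χ x * ‖V x - g x‖ ∂(tor n) ≤
      ∫ x, (χ x * (‖V x - g x‖ ^ 2 / (‖V x - g x‖ + η)) + η) ∂(tor n) := by
    refine integral_mono k1 (k2.add (integrable_const η)) fun x => ?_
    show χ x * ‖V x - g x‖ ≤ χ x * (‖V x - g x‖ ^ 2 / (‖V x - g x‖ + η)) + η
    have h1 : ‖V x - g x‖ - η ≤ ‖V x - g x‖ ^ 2 / (‖V x - g x‖ + η) := by
      rw [le_div_iff₀ (hpos x)]
      nlinarith [sq_nonneg η]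
    have h2 := mul_le_mul_of_nonneg_left h1 (hχ x).1
    have h3 : χ x * η ≤ 1 * η := mul_le_mul_of_nonneg_right (hχ x).2 hη.le
    linarith [h2, h3]
  rw [integral_add k2 (integrable_const η), integral_const, smul_eq_mul] at k3
  have k4 : (tor n).real Set.univ = 1 := by simp
  rw [k4] at k3
  linarith

/-- **Module E7.** -/
theorem st_E7 (h6 : ST_E6) : ST_E7 := by
  intro n v β hβp hac b hb hfin
  have hκe : ∀ t : ℝ, ∃ κ : Measure (UnitAddTorus (Fin n)), 0 < t → (IsProbabilityMeasure κ ∧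
      ∀ m, ∫ x, mFourier m x ∂κ = ((ww (v m / t) : ℝ) : ℂ)) := by
    intro t
    by_cases ht : 0 < t
    · obtain ⟨κ, h⟩ := h6 n v t ht
      exact ⟨κ, fun _ => h⟩
    · exact ⟨0, fun h => absurd h ht⟩
  choose κ hκ using hκe
  refine ⟨fun x => (β.rnDeriv (tor n) x).toReal, (Measure.measurable_rnDeriv _ _).ennreal_toReal,
    ?_, ?_⟩
  · filter_upwards [Measure.rnDeriv_pos' hac, Measure.rnDeriv_lt_top β (tor n)] with x hx1 hx2
    exact ENNReal.toReal_pos hx1.ne' hx2.ne
  intro δ hδ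
  have hρi : Integrable (fun x => (((β.rnDeriv (tor n) x).toReal : ℝ) : ℂ)) (tor n) :=
    Measure.integrable_toReal_rnDeriv.ofReal
  rw [ENNReal.tendsto_nhds_zero]
  intro ε hε
  by_cases hεt : ε = ⊤
  · refine Eventually.of_forall fun t => ?_
    rw [hεt]
    exact le_top
  have hε' : 0 < ε.toReal := ENNReal.toReal_pos hε.ne' hεt
  obtain ⟨η, hη, hηε⟩ : ∃ η : ℝ, 0 < η ∧ η * (1 + 12 / δ) ≤ ε.toReal := by
    have h1 : 0 < 1 + 12 / δ := by positivity
    exact ⟨ε.toReal / (1 + 12 / δ), div_pos hε' h1, by rw [div_mul_cancel₀ _ h1.ne']⟩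
  obtain ⟨χ, hχ, hχs, hχm⟩ := e7_cut (β.singularPart (tor n))
    (Measure.mutuallySingular_singularPart β (tor n)) hη
  obtain ⟨g0, hg0, _⟩ := hρi.exists_boundedContinuous_integral_sub_le hη
  let g : C(UnitAddTorus (Fin n), ℂ) := g0.toContinuousMap
  let χc : C(UnitAddTorus (Fin n), ℂ) := ⟨fun x => ((χ x : ℝ) : ℂ),
    Complex.continuous_ofReal.comp χ.continuous⟩
  have hg : ∫ x, ‖(((β.rnDeriv (tor n) x).toReal : ℝ) : ℂ) - g x‖ ∂(tor n) ≤ η := hg0
  filter_upwards [e7_conv v κ hκ χc η hη, e7_convQ v κ hκ g η hη,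
    eventually_gt_atTop (0 : ℝ)] with t ht1 ht2 ht0
  have hκt := (hκ t ht0).1
  obtain ⟨F, hF⟩ : ∃ F : Finset (Fin n → ℤ), ∀ m, |v m| ≤ t → b m ≠ 0 → m ∈ F :=
    ⟨(hfin t).toFinset, fun m h1 h2 => by
      rw [Set.Finite.mem_toFinset]
      exact ⟨h1, h2⟩⟩
  have key := e7_key β (κ t) (e7V v b F t) g χ hη hχ hχs ht1 hg ht2
    (e7_id v b F ht0 hF (κ t) β (hκ t ht0).2 hb)
  have m1 := mul_meas_ge_le_integral_of_nonneg (μ := tor n)
    (f := fun x => χ x * ‖e7V v b F t x - g x‖)
    (Eventually.of_forall fun x => mul_nonneg (hχ x).1 (norm_nonneg _))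
    ((χ.continuous.mul ((e7V v b F t).continuous.sub
      g.continuous).norm).integrable_of_hasCompactSupport (HasCompactSupport.of_compactSpace _))
    (δ / 2)
  have m2 := mul_meas_ge_le_integral_of_nonneg (μ := tor n)
    (f := fun x => ‖(((β.rnDeriv (tor n) x).toReal : ℝ) : ℂ) - g x‖)
    (Eventually.of_forall fun x => norm_nonneg _) (hρi.sub (e7_cint _ g.continuous)).norm (δ / 2)
  have hsub : {x | δ ≤ |VE v b t x - (β.rnDeriv (tor n) x).toReal|} ⊆
      {x | χ x ≠ 1} ∪ ({x | δ / 2 ≤ χ x * ‖e7V v b F t x - g x‖} ∪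
        {x | δ / 2 ≤ ‖(((β.rnDeriv (tor n) x).toReal : ℝ) : ℂ) - g x‖}) := by
    intro x hx
    rw [Set.mem_ofPred_eq] at hx
    by_cases h1 : χ x = 1
    swap
    · exact Or.inl h1
    right
    by_contra hcon
    rw [Set.mem_union, not_or, Set.mem_ofPred_eq, Set.mem_ofPred_eq, not_le, not_le, h1,
      one_mul] at hcon
    rw [e7_VE v b F ht0 hF] at hx
    have h2 : (e7V v b F t x).re - (β.rnDeriv (tor n) x).toReal =
        (e7V v b F t x - (((β.rnDeriv (tor n) x).toReal : ℝ) : ℂ)).re := by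
      rw [Complex.sub_re, Complex.ofReal_re]
    rw [h2] at hx
    have h3 := Complex.abs_re_le_norm (e7V v b F t x -
      (((β.rnDeriv (tor n) x).toReal : ℝ) : ℂ))
    have h4 : e7V v b F t x - (((β.rnDeriv (tor n) x).toReal : ℝ) : ℂ) =
        (e7V v b F t x - g x) - ((((β.rnDeriv (tor n) x).toReal : ℝ) : ℂ) - g x) := by ring
    have h5 := norm_sub_le (e7V v b F t x - g x)
      ((((β.rnDeriv (tor n) x).toReal : ℝ) : ℂ) - g x)
    rw [← h4] at h5
    linarith [hcon.1, hcon.2]
  have m3 : (tor n).real {x | δ ≤ |VE v b t x - (β.rnDeriv (tor n) x).toReal|} ≤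
      η * (1 + 12 / δ) := by
    refine (measureReal_mono hsub).trans ((measureReal_union_le _ _).trans ?_)
    have m4 := measureReal_union_le (μ := tor n)
      {x | δ / 2 ≤ χ x * ‖e7V v b F t x - g x‖}
      {x | δ / 2 ≤ ‖(((β.rnDeriv (tor n) x).toReal : ℝ) : ℂ) - g x‖}
    have m5 : (tor n).real {x | δ / 2 ≤ χ x * ‖e7V v b F t x - g x‖} ≤ 5 * η / (δ / 2) := by
      rw [le_div_iff₀ (half_pos hδ), mul_comm]
      exact m1.trans key
    have m6 : (tor n).real {x | δ / 2 ≤ ‖(((β.rnDeriv (tor n) x).toReal : ℝ) : ℂ) - g x‖} ≤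
        η / (δ / 2) := by
      rw [le_div_iff₀ (half_pos hδ), mul_comm]
      exact m2.trans hg
    have m7 : η * (1 + 12 / δ) = η + (5 * η / (δ / 2) + η / (δ / 2)) := by
      field_simp
      ring
    rw [m7]
    linarith
  have m8 := m3.trans hηε
  rw [Measure.real] at m8
  exact (ENNReal.toReal_le_toReal (measure_ne_top _ _) hεt).1 m8

end

end Pool.Agent.Helper97.FS
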